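import Mathlib

open Set

namespace Pool.Agent.Results.MP_d9ed39_co.JointsDisproof

universe u

/-- A matroid is *simple* if it has no loops and no parallel pairs: any (at most) two elements of
the ground set form an independent set (the case `x = y` says that there are no loops). -/
def IsSimple {α : Type u} (M : Matroid α) : Prop :=
  ∀ x ∈ M.E, ∀ y ∈ M.E, M.Indep {x, y}

/-- A *line* of the matroid `M` is a flat of rank `2`. -/
def IsLine {α : Type u} (M : Matroid α) (l : Set α) : Prop :=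
  M.IsFlat l ∧ M.eRk l = 2

/-- The point `x` of `M` is an *`n`-dimensional joint* of the set `𝔏` of lines if there are lines
`l 0, …, l (n-1)` in `𝔏`, all containing `x`, whose union has rank at least `n + 1`. -/
def IsJoint {α : Type u} (M : Matroid α) (𝔏 : Set (Set α)) (n : ℕ) (x : α) : Prop :=
  x ∈ M.E ∧ ∃ l : Fin n → Set α,
    (∀ i, l i ∈ 𝔏 ∧ x ∈ l i) ∧ (n : ℕ∞) + 1 ≤ M.eRk (⋃ i, l i)

/-- The set of all numbers `j` such that some set of exactly `L` lines of some finite simple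
matroid has exactly `j` joints of dimension `n`. -/
def jointCounts (n L : ℕ) : Set ℕ :=
  {j | ∃ (α : Type u) (M : Matroid α) (𝔏 : Set (Set α)),
      M.Finite ∧ IsSimple M ∧ (∀ l ∈ 𝔏, IsLine M l) ∧ 𝔏.Finite ∧ 𝔏.ncard = L ∧
      {x | IsJoint M 𝔏 n x}.ncard = j}

/-- `J n L` is the maximum number of `n`-dimensional joints of a set of exactly `L` lines of a
finite simple matroid. -/
noncomputable def J (n L : ℕ) : ℕ := sSup (jointCounts.{u} n L)

section basic

variable {α : Type u} {M : Matroid α}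

lemma line_subset_flat (hM : IsSimple M) {l F : Set α} (hl : IsLine M l) (hF : M.IsFlat F)
    {x y : α} (hxy : x ≠ y) (hxl : x ∈ l) (hyl : y ∈ l) (hxF : x ∈ F) (hyF : y ∈ F) : l ⊆ F := by
  have hlE : l ⊆ M.E := hl.1.subset_ground
  have hI : M.Indep {x, y} := hM x (hlE hxl) y (hlE hyl)
  have hsub : ({x, y} : Set α) ⊆ l := by
    intro z hz
    rcases hz with rfl | hz
    · exact hxl
    · rw [mem_singleton_iff] at hz; rw [hz]; exact hyl
  have hcard : M.eRk {x, y} = 2 := by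
    rw [hI.eRk_eq_encard, encard_pair hxy]
  have hb : M.IsBasis {x, y} l :=
    hI.isBasis_of_eRk_ge (by simp) hsub (by rw [hl.2, hcard])
  have hcl : M.closure {x, y} = M.closure l := hb.closure_eq_closure
  have hsubF : ({x, y} : Set α) ⊆ F := by
    intro z hz
    rcases hz with rfl | hz
    · exact hxF
    · rw [mem_singleton_iff] at hz; rw [hz]; exact hyF
  calc l ⊆ M.closure l := M.subset_closure l
    _ = M.closure {x, y} := hcl.symm
    _ ⊆ M.closure F := M.closure_subset_closure hsubF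
    _ = F := hF.closure

lemma line_inter (hM : IsSimple M) {l m : Set α} (hl : IsLine M l) (hm : IsLine M m)
    (hlm : l ≠ m) {x y : α} (hxl : x ∈ l) (hyl : y ∈ l) (hxm : x ∈ m) (hym : y ∈ m) : x = y := by
  by_contra hxy
  exact hlm (Subset.antisymm (line_subset_flat hM hl hm.1 hxy hxl hyl hxm hym)
    (line_subset_flat hM hm hl.1 hxy hxm hym hxl hyl))

end basic

section count

variable {α : Type u} {M : Matroid α}

open Classical in
/-- A flat of rank at most `4` contains at most `L` joints. -/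
lemma joints_in_flat (hM : IsSimple M) (𝔏 : Finset (Set α)) (h𝔏 : ∀ l ∈ 𝔏, IsLine M l)
    (n : ℕ) (hn : 4 ≤ n) (Jt : Finset α) (hJt : ∀ x ∈ Jt, IsJoint M (↑𝔏) n x)
    {F : Set α} (hF : M.IsFlat F) (hF4 : M.eRk F ≤ 4) :
    (Jt.filter (fun x => x ∈ F)).card ≤ 𝔏.card := by
  have key : ∀ x ∈ Jt.filter (fun x => x ∈ F), ∃ l ∈ 𝔏, x ∈ l ∧ ¬ l ⊆ F := by
    intro x hx
    rw [Finset.mem_filter] at hx
    obtain ⟨hxE, l, hl, hr⟩ := hJt x hx.1
    by_contra hcon
    push Not at hcon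
    have hsub : (⋃ i, l i) ⊆ F := by
      apply iUnion_subset
      intro i
      exact hcon (l i) (by exact_mod_cast (hl i).1) (hl i).2
    have h1 : (n : ℕ∞) + 1 ≤ 4 := hr.trans ((M.eRk_mono hsub).trans hF4)
    have h2 : ((n + 1 : ℕ) : ℕ∞) ≤ ((4 : ℕ) : ℕ∞) := by exact_mod_cast h1
    have h3 : n + 1 ≤ 4 := by exact_mod_cast h2
    omega
  choose! f hf using key
  apply Finset.card_le_card_of_injOn f
  · intro x hx
    exact (hf x hx).1
  · intro x hx y hy hxy
    by_contra hne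
    have hx' := hf x hx
    have hy' := hf y hy
    rw [← hxy] at hy'
    apply hx'.2.2
    have hxF : x ∈ F := (Finset.mem_filter.1 (Finset.mem_coe.1 hx)).2
    have hyF : y ∈ F := (Finset.mem_filter.1 (Finset.mem_coe.1 hy)).2
    exact line_subset_flat hM (h𝔏 _ hx'.1) hF hne hx'.2.1 hy'.2.1 hxF hyF

/-- Every joint lies on two distinct lines of `𝔏`. -/
lemma two_lines (𝔏 : Finset (Set α)) (h𝔏 : ∀ l ∈ 𝔏, IsLine M l)
    (n : ℕ) (hn : 4 ≤ n) {x : α} (hx : IsJoint M (↑𝔏) n x) :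
    ∃ a ∈ 𝔏, ∃ b ∈ 𝔏, a ≠ b ∧ x ∈ a ∧ x ∈ b := by
  obtain ⟨hxE, l, hl, hr⟩ := hx
  by_contra hcon
  push Not at hcon
  have hall : ∀ i, l i = l ⟨0, by omega⟩ := by
    intro i
    by_contra hne
    exact hcon (l i) (by exact_mod_cast (hl i).1) (l ⟨0, by omega⟩)
      (by exact_mod_cast (hl _).1) hne (hl i).2 (hl _).2
  have hsub : (⋃ i, l i) ⊆ l ⟨0, by omega⟩ := by
    apply iUnion_subset
    intro i
    rw [hall i]
  have h0 : M.eRk (l ⟨0, by omega⟩) = 2 :=
    (h𝔏 _ (by exact_mod_cast (hl ⟨0, by omega⟩).1)).2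
  have h1 : (n : ℕ∞) + 1 ≤ 2 := hr.trans ((M.eRk_mono hsub).trans h0.le)
  have h2 : ((n + 1 : ℕ) : ℕ∞) ≤ ((2 : ℕ) : ℕ∞) := by exact_mod_cast h1
  have h3 : n + 1 ≤ 2 := by exact_mod_cast h2
  omega

open Classical in
/-- The main double count. -/
lemma main_count (hM : IsSimple M) (𝔏 : Finset (Set α)) (h𝔏 : ∀ l ∈ 𝔏, IsLine M l)
    (n : ℕ) (hn : 4 ≤ n) (Jt : Finset α) (hJt : ∀ x ∈ Jt, IsJoint M (↑𝔏) n x) :
    8 * Jt.card ^ 3 ≤ 3 * 𝔏.card ^ 5 := by
  have h2 : ∀ x ∈ Jt, ∃ a ∈ 𝔏, ∃ b ∈ 𝔏, a ≠ b ∧ x ∈ a ∧ x ∈ b :=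
    fun x hx => two_lines 𝔏 h𝔏 n hn (hJt x hx)
  choose! a ha b hb hab hxa hxb using h2
  -- the joints assigned to the line `w`
  set D : Set α → Finset α := fun w => Jt.filter (fun x => w = a x ∨ w = b x) with hD
  -- the other line
  set o : Set α → α → Set α := fun w x => if w = a x then b x else a x with ho
  have hDmem : ∀ w x, x ∈ D w ↔ x ∈ Jt ∧ (w = a x ∨ w = b x) := by
    intro w x; rw [hD]; simp
  have hDw : ∀ w x, x ∈ D w → x ∈ w := by
    intro w x hx
    rw [hDmem] at hx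
    rcases hx with ⟨h1, h2 | h2⟩
    · rw [h2]; exact hxa x h1
    · rw [h2]; exact hxb x h1
  have ho𝔏 : ∀ w x, x ∈ D w → o w x ∈ 𝔏 := by
    intro w x hx
    rw [hDmem] at hx
    simp only [ho]
    split_ifs
    · exact hb x hx.1
    · exact ha x hx.1
  have hoxm : ∀ w x, x ∈ D w → x ∈ o w x := by
    intro w x hx
    rw [hDmem] at hx
    simp only [ho]
    split_ifs
    · exact hxb x hx.1
    · exact hxa x hx.1
  have hone : ∀ w x, x ∈ D w → o w x ≠ w := by
    intro w x hx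
    rw [hDmem] at hx
    simp only [ho]
    split_ifs with h
    · rw [h]; exact (hab x hx.1).symm
    · exact fun h' => h h'.symm
  -- the sum of degrees
  have hsum : ∑ w ∈ 𝔏, (D w).card = 2 * Jt.card := by
    have h1 : ∀ w, (D w).card = ∑ x ∈ Jt, if (w = a x ∨ w = b x) then 1 else 0 := by
      intro w
      rw [hD, Finset.card_filter]
    simp_rw [h1]
    rw [Finset.sum_comm]
    have h2 : ∀ x ∈ Jt, (∑ w ∈ 𝔏, if (w = a x ∨ w = b x) then 1 else 0) = 2 := by
      intro x hx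
      rw [← Finset.card_filter]
      have : 𝔏.filter (fun w => w = a x ∨ w = b x) = {a x, b x} := by
        ext w
        simp only [Finset.mem_filter, Finset.mem_insert, Finset.mem_singleton]
        constructor
        · exact fun h => h.2
        · rintro (h | h)
          · exact ⟨h ▸ ha x hx, Or.inl h⟩
          · exact ⟨h ▸ hb x hx, Or.inr h⟩
      rw [this, Finset.card_pair (hab x hx)]
    rw [Finset.sum_congr rfl h2]
    simp [mul_comm]
  -- a line meets the other line of a joint only in that joint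
  have huniq : ∀ w ∈ 𝔏, ∀ x ∈ D w, ∀ x' ∈ D w, o w x = o w x' → x = x' := by
    intro w hw x hx x' hx' h
    exact line_inter hM (h𝔏 _ (ho𝔏 w x hx)) (h𝔏 w hw) (hone w x hx) (hoxm w x hx)
      (by rw [h]; exact hoxm w x' hx') (hDw w x hx) (hDw w x' hx')
  -- the triples
  set T : Finset (Σ _ : Set α, α × α × α) := 𝔏.sigma (fun w => D w ×ˢ D w ×ˢ D w) with hT
  have hTcard : T.card = ∑ w ∈ 𝔏, (D w).card ^ 3 := by
    rw [hT, Finset.card_sigma]
    apply Finset.sum_congr rfl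
    intro w _
    rw [Finset.card_product, Finset.card_product]
    ring
  have hTmem : ∀ t, t ∈ T ↔ t.1 ∈ 𝔏 ∧ t.2.1 ∈ D t.1 ∧ t.2.2.1 ∈ D t.1 ∧ t.2.2.2 ∈ D t.1 := by
    intro t
    rw [hT]
    simp only [Finset.mem_sigma, Finset.mem_product]
  have hsplit : (T.filter (fun t => t.2.1 = t.2.2.1)).card
      + (T.filter (fun t => ¬ t.2.1 = t.2.2.1)).card = T.card :=
    Finset.card_filter_add_card_filter_not _
  -- the diagonal part
  have hdiag : (T.filter (fun t => t.2.1 = t.2.2.1)).card ≤ 𝔏.card ^ 3 := by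
    have : (𝔏 ×ˢ 𝔏 ×ˢ 𝔏).card = 𝔏.card ^ 3 := by
      rw [Finset.card_product, Finset.card_product]; ring
    rw [← this]
    apply Finset.card_le_card_of_injOn (fun t => (t.1, o t.1 t.2.1, o t.1 t.2.2.2))
    · intro t ht
      have ht' := (Finset.mem_filter.1 (Finset.mem_coe.1 ht))
      rw [hTmem] at ht'
      simp only [Finset.coe_product, mem_prod, Finset.mem_coe]
      exact ⟨ht'.1.1, ho𝔏 _ _ ht'.1.2.1, ho𝔏 _ _ ht'.1.2.2.2⟩
    · rintro ⟨w, x, x', y⟩ ht ⟨w2, x2, x2', y2⟩ ht2 h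
      have ht' := (Finset.mem_filter.1 (Finset.mem_coe.1 ht))
      have ht2' := (Finset.mem_filter.1 (Finset.mem_coe.1 ht2))
      rw [hTmem] at ht' ht2'
      simp only [Prod.mk.injEq] at h ht' ht2'
      obtain ⟨h1, h2, h3⟩ := h
      subst h1
      have hx : x = x2 := huniq w ht'.1.1 x ht'.1.2.1 x2 ht2'.1.2.1 h2
      have hy : y = y2 := huniq w ht'.1.1 y ht'.1.2.2.2 y2 ht2'.1.2.2.2 h3
      have hx' : x' = x2' := by rw [← ht'.2, ← ht2'.2, hx]
      rw [hx, hy, hx']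
  -- the off-diagonal part
  set U : Finset (Σ _ : Set α × Set α, α × Bool) :=
    (𝔏 ×ˢ 𝔏).sigma (fun p => (Jt.filter (fun y => y ∈ M.closure (p.1 ∪ p.2))) ×ˢ
      (Finset.univ : Finset Bool)) with hU
  have hUcard : U.card ≤ 𝔏.card ^ 2 * (𝔏.card * 2) := by
    rw [hU, Finset.card_sigma]
    calc ∑ p ∈ 𝔏 ×ˢ 𝔏, ((Jt.filter (fun y => y ∈ M.closure (p.1 ∪ p.2))) ×ˢ
          (Finset.univ : Finset Bool)).card
        ≤ ∑ p ∈ 𝔏 ×ˢ 𝔏, 𝔏.card * 2 := by
          apply Finset.sum_le_sum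
          rintro ⟨p, q⟩ hpq
          rw [Finset.mem_product] at hpq
          rw [Finset.card_product]
          apply Nat.mul_le_mul _ (by simp)
          apply joints_in_flat hM 𝔏 h𝔏 n hn Jt hJt (M.isFlat_closure _)
          rw [M.eRk_closure_eq]
          calc M.eRk (p ∪ q) ≤ M.eRk p + M.eRk q := M.eRk_union_le_eRk_add_eRk p q
            _ = 2 + 2 := by rw [(h𝔏 p hpq.1).2, (h𝔏 q hpq.2).2]
            _ = 4 := by norm_num
      _ = 𝔏.card ^ 2 * (𝔏.card * 2) := by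
          rw [Finset.sum_const, Finset.card_product, smul_eq_mul]; ring
  have hoff : (T.filter (fun t => ¬ t.2.1 = t.2.2.1)).card ≤ U.card := by
    apply Finset.card_le_card_of_injOn
      (fun t => (⟨(o t.1 t.2.1, o t.1 t.2.2.1), (t.2.2.2, decide (t.1 = a t.2.2.2))⟩ :
        Σ _ : Set α × Set α, α × Bool))
    · rintro ⟨w, x, x', y⟩ ht
      have ht' := (Finset.mem_filter.1 (Finset.mem_coe.1 ht))
      rw [hTmem] at ht'
      obtain ⟨⟨hw, hx, hx', hy⟩, hne⟩ := ht'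
      simp only at hw hx hx' hy hne
      rw [hU]
      simp only [Finset.coe_sigma, mem_sigma_iff, Finset.coe_product, mem_prod, Finset.mem_coe,
        Finset.mem_filter, Finset.mem_univ, and_true]
      refine ⟨⟨ho𝔏 w x hx, ho𝔏 w x' hx'⟩, ((hDmem w y).1 hy).1, ?_⟩
      have hE1 : o w x ⊆ M.E := (h𝔏 _ (ho𝔏 w x hx)).1.subset_ground
      have hE2 : o w x' ⊆ M.E := (h𝔏 _ (ho𝔏 w x' hx')).1.subset_ground
      have hsub : o w x ∪ o w x' ⊆ M.closure (o w x ∪ o w x') :=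
        M.subset_closure _ (union_subset hE1 hE2)
      exact line_subset_flat hM (h𝔏 w hw) (M.isFlat_closure _) hne (hDw w x hx) (hDw w x' hx')
        (hsub (Or.inl (hoxm w x hx))) (hsub (Or.inr (hoxm w x' hx'))) (hDw w y hy)
    · rintro ⟨w, x, x', y⟩ ht ⟨w2, x2, x2', y2⟩ ht2 h
      have ht' := (Finset.mem_filter.1 (Finset.mem_coe.1 ht))
      have ht2' := (Finset.mem_filter.1 (Finset.mem_coe.1 ht2))
      rw [hTmem] at ht' ht2'
      obtain ⟨⟨hw, hx, hx', hy⟩, hne⟩ := ht'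
      obtain ⟨⟨hw2, hx2, hx2', hy2⟩, hne2⟩ := ht2'
      simp only at hw hx hx' hy hne hw2 hx2 hx2' hy2 hne2
      simp only [Sigma.mk.injEq, Prod.mk.injEq, heq_eq_eq, decide_eq_decide] at h
      obtain ⟨⟨h1, h2⟩, h3, h4⟩ := h
      subst h3
      have hww : w = w2 := by
        rcases ((hDmem w y).1 hy).2 with h5 | h5
        · rw [h5, h4.1 h5]
        · rcases ((hDmem w2 y).1 hy2).2 with h6 | h6
          · rw [h6, h4.2 h6]
          · rw [h5, h6]
      subst hww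
      have e1 : x = x2 := huniq w hw x hx x2 hx2 h1
      have e2 : x' = x2' := huniq w hw x' hx' x2' hx2' h2
      rw [e1, e2]
  have hTle : ∑ w ∈ 𝔏, (D w).card ^ 3 ≤ 3 * 𝔏.card ^ 3 := by
    rw [← hTcard, ← hsplit]
    calc _ ≤ 𝔏.card ^ 3 + 𝔏.card ^ 2 * (𝔏.card * 2) := Nat.add_le_add hdiag (hoff.trans hUcard)
      _ = 3 * 𝔏.card ^ 3 := by ring
  -- power mean
  have hpm : ((∑ w ∈ 𝔏, ((D w).card : ℝ)) ^ (2 + 1)) / (𝔏.card : ℝ) ^ 2
      ≤ ∑ w ∈ 𝔏, ((D w).card : ℝ) ^ (2 + 1) :=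
    pow_sum_div_card_le_sum_pow (fun i _ => by positivity) 2
  rcases Nat.eq_zero_or_pos 𝔏.card with h0 | hpos
  · have : 𝔏 = ∅ := Finset.card_eq_zero.1 h0
    have hJ0 : Jt.card = 0 := by
      rw [this] at hsum
      simp at hsum
      simpa using hsum
    rw [hJ0, h0]
    norm_num
  · have hposR : (0 : ℝ) < (𝔏.card : ℝ) ^ 2 := by positivity
    rw [div_le_iff₀ hposR] at hpm
    have hs : (∑ w ∈ 𝔏, ((D w).card : ℝ)) = 2 * (Jt.card : ℝ) := by exact_mod_cast hsum
    have ht : (∑ w ∈ 𝔏, ((D w).card : ℝ) ^ (2 + 1)) ≤ 3 * (𝔏.card : ℝ) ^ 3 := by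
      exact_mod_cast hTle
    rw [hs] at hpm
    have : (8 : ℝ) * (Jt.card : ℝ) ^ 3 ≤ 3 * (𝔏.card : ℝ) ^ 5 := by
      calc (8 : ℝ) * (Jt.card : ℝ) ^ 3 = (2 * (Jt.card : ℝ)) ^ (2 + 1) := by ring
        _ ≤ _ := hpm
        _ ≤ (3 * (𝔏.card : ℝ) ^ 3) * (𝔏.card : ℝ) ^ 2 := by gcongr
        _ = 3 * (𝔏.card : ℝ) ^ 5 := by ring
    exact_mod_cast this

/-- The bound for a single configuration. -/
lemma joints_le (hM : IsSimple M) (𝔏 : Set (Set α)) (h𝔏 : ∀ l ∈ 𝔏, IsLine M l)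
    (hfin : 𝔏.Finite) (hMfin : M.Finite) (n : ℕ) (hn : 4 ≤ n) :
    ({x | IsJoint M 𝔏 n x}.ncard : ℝ) ≤ (𝔏.ncard : ℝ) ^ (5 / 3 : ℝ) := by
  classical
  have hJfin : {x | IsJoint M 𝔏 n x}.Finite :=
    hMfin.ground_finite.subset (fun x hx => hx.1)
  have h := main_count hM hfin.toFinset (by simpa using h𝔏) n hn hJfin.toFinset
    (by
      intro x hx
      have hx' : IsJoint M 𝔏 n x := by simpa using hx
      simpa using hx')
  rw [← ncard_eq_toFinset_card _ hJfin, ← ncard_eq_toFinset_card _ hfin] at h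
  set a := {x | IsJoint M 𝔏 n x}.ncard
  set L := 𝔏.ncard
  have h1 : (a : ℝ) ^ 3 ≤ (L : ℝ) ^ 5 := by
    have : a ^ 3 ≤ L ^ 5 := by omega
    exact_mod_cast this
  have h2 : ((L : ℝ) ^ (5 / 3 : ℝ)) ^ 3 = (L : ℝ) ^ 5 := by
    rw [← Real.rpow_natCast, ← Real.rpow_mul (by positivity)]
    norm_num
  rw [← h2] at h1
  exact le_of_pow_le_pow_left₀ (by norm_num) (by positivity) h1

end count

/-- There are configurations of `L` lines, for every `L`. -/
lemma jointCounts_nonempty (n L : ℕ) : (jointCounts.{u} n L).Nonempty := by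
  classical
  set α := ULift.{u} (Fin (L + 1)) with hα
  set M : Matroid α := Matroid.freeOn univ with hM
  let z : α := ⟨0⟩
  let f : Fin L → Set α := fun i => {z, ⟨i.succ⟩}
  have hz : ∀ i : Fin L, z ≠ (⟨i.succ⟩ : α) := by
    intro i h
    have := congrArg ULift.down h
    exact (Fin.succ_ne_zero i) this.symm
  have hf : Function.Injective f := by
    intro i j hij
    have h1 : (⟨i.succ⟩ : α) ∈ f j := by
      rw [← hij]; simp [f]
    rcases h1 with h1 | h1
    · exact absurd h1.symm (hz i)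
    · have := congrArg ULift.down h1
      exact Fin.succ_injective _ this
  refine ⟨{x | IsJoint M (range f) n x}.ncard, α, M, range f, ?_, ?_, ?_, finite_range f, ?_, rfl⟩
  · exact ⟨toFinite _⟩
  · intro x _ y _
    rw [hM, Matroid.freeOn_indep_iff]
    exact subset_univ _
  · rintro l ⟨i, rfl⟩
    refine ⟨?_, ?_⟩
    · rw [Matroid.isFlat_iff_closure_eq, hM]
      apply Subset.antisymm
      · intro x hx
        by_contra hxf
        have hI : (Matroid.freeOn (univ : Set α)).Indep (f i) := by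
          rw [Matroid.freeOn_indep_iff]; exact subset_univ _
        rw [hI.mem_closure_iff_of_notMem hxf] at hx
        exact hx.not_indep (by rw [Matroid.freeOn_indep_iff]; exact subset_univ _)
      · exact Matroid.subset_closure _ _ (subset_univ _)
    · rw [hM, Matroid.eRk_freeOn (subset_univ _)]
      exact encard_pair (hz i)
  · rw [← image_univ, ncard_image_of_injective _ hf, ncard_univ]
    simp

/-- **Disproof of near-quadratic growth.** Let `n ≥ 4`. For every `L` the maximum `J n L` (a genuine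
maximum of a nonempty bounded set of natural numbers) is at most `L ^ (5/3)`; consequently there is
`ε > 0` such that `J n L < L ^ (2 - ε)` for all sufficiently large `L`. -/
theorem result (n : ℕ) (hn : 4 ≤ n) :
    (∀ L : ℕ, (jointCounts.{u} n L).Nonempty ∧ BddAbove (jointCounts.{u} n L) ∧
      (J.{u} n L : ℝ) ≤ (L : ℝ) ^ (5 / 3 : ℝ)) ∧
    ∃ ε : ℝ, 0 < ε ∧ ∀ᶠ L : ℕ in Filter.atTop, (J.{u} n L : ℝ) < (L : ℝ) ^ (2 - ε) := by
  have hb : ∀ L : ℕ, ∀ j ∈ jointCounts.{u} n L, (j : ℝ) ≤ (L : ℝ) ^ (5 / 3 : ℝ) := by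
    rintro L j ⟨α, M, 𝔏, hMf, hM, h𝔏, hfin, hL, hj⟩
    rw [← hj, ← hL]
    exact joints_le hM 𝔏 h𝔏 hfin hMf n hn
  have hbdd : ∀ L : ℕ, BddAbove (jointCounts.{u} n L) := by
    intro L
    refine ⟨⌊(L : ℝ) ^ (5 / 3 : ℝ)⌋₊, ?_⟩
    intro j hj
    exact Nat.le_floor (hb L j hj)
  have hJ : ∀ L : ℕ, (J.{u} n L : ℝ) ≤ (L : ℝ) ^ (5 / 3 : ℝ) := by
    intro L
    exact hb L _ (Nat.sSup_mem (jointCounts_nonempty n L) (hbdd L))
  refine ⟨fun L => ⟨jointCounts_nonempty n L, hbdd L, hJ L⟩, 1 / 4, by norm_num, ?_⟩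
  filter_upwards [Filter.eventually_ge_atTop 2] with L hL
  refine lt_of_le_of_lt (hJ L) ?_
  apply Real.rpow_lt_rpow_of_exponent_lt
  · exact_mod_cast hL
  · norm_num

end Pool.Agent.Results.MP_d9ed39_co.JointsDisproof
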